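import Mathlib

namespace Pool.Agent.Lib.MP_c2c03e_al.Scl

/-- Commutator length: the least `k` such that `g` is a product of `k` commutators
`a * b * a⁻¹ * b⁻¹`. -/
noncomputable def cl {G : Type*} [Group G] (g : G) : ℕ :=
  sInf {k : ℕ | ∃ l : List G, l.length = k ∧ (∀ c ∈ l, ∃ a b : G, c = a * b * a⁻¹ * b⁻¹) ∧
    l.prod = g}

end Pool.Agent.Lib.MP_c2c03e_al.Scl
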