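import Pool.Agent.Lib.MP_c2c03e_al.Step
import Pool.Agent.Lib.MP_c2c03e_al.Scl.Defs

/-! Stable commutator length in Coxeter groups has a gap. -/

set_option linter.unusedSectionVars false

namespace Pool.Agent.Lib.MP_c2c03e_al.Scl

open CoxeterSystem Filter Topology

section General

variable {G : Type*} [Group G]

/-- `g` is a product of `k` commutators. -/
def PC (g : G) (k : ℕ) : Prop :=
  ∃ l : List G, l.length = k ∧ (∀ c ∈ l, ∃ a b : G, c = a * b * a⁻¹ * b⁻¹) ∧ l.prod = g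

theorem PC.cl_le {g : G} {k : ℕ} (h : PC g k) : cl g ≤ k := Nat.sInf_le h

theorem PC.cl {g : G} {k : ℕ} (h : PC g k) : PC g (cl g) :=
  Nat.sInf_mem (s := {k | PC g k}) ⟨k, h⟩

theorem PC.one : PC (1 : G) 0 := ⟨[], rfl, by simp, rfl⟩

theorem PC.cons {g : G} {k : ℕ} (h : PC g k) (a b : G) :
    PC (a * b * a⁻¹ * b⁻¹ * g) (k + 1) := by
  obtain ⟨l, h1, h2, h3⟩ := h
  refine ⟨(a * b * a⁻¹ * b⁻¹) :: l, by simp [h1], fun c hc => ?_, by simp [h3]⟩
  rcases List.mem_cons.1 hc with rfl | hc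
  · exact ⟨a, b, rfl⟩
  · exact h2 c hc

theorem PC.mul {g h : G} {k m : ℕ} (h1 : PC g k) (h2 : PC h m) : PC (g * h) (k + m) := by
  obtain ⟨l, a1, a2, a3⟩ := h1
  obtain ⟨l', b1, b2, b3⟩ := h2
  refine ⟨l ++ l', by simp [a1, b1], fun c hc => ?_, by simp [a3, b3]⟩
  rcases List.mem_append.1 hc with h | h
  · exact a2 c h
  · exact b2 c h

theorem PC.mem {g : G} {k : ℕ} (h : PC g k) : g ∈ commutator G := by
  obtain ⟨l, -, h2, rfl⟩ := h
  refine Subgroup.list_prod_mem _ fun c hc => ?_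
  obtain ⟨a, b, rfl⟩ := h2 c hc
  exact Subgroup.commutator_mem_commutator (Subgroup.mem_top a) (Subgroup.mem_top b)

/-- An antisymmetric quasimorphism is bounded by commutator length. -/
theorem PC.qm {φ : G → ℤ} {D : ℤ} (h1 : φ 1 = 0) (hinv : ∀ x, φ x⁻¹ = -φ x)
    (hmul : ∀ x y, φ (x * y) ≤ φ x + φ y + D) {g : G} {k : ℕ} (h : PC g k) :
    φ g ≤ 4 * D * k := by
  obtain ⟨l, rfl, h2, rfl⟩ := h
  induction l with
  | nil => simp [h1]
  | cons c l ih =>
    have ih := ih fun r hr => h2 r (List.mem_cons_of_mem _ hr)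
    obtain ⟨a, b, rfl⟩ := h2 c List.mem_cons_self
    have e1 := hmul (a * b * a⁻¹ * b⁻¹) l.prod
    have e2 := hmul (a * b * a⁻¹) b⁻¹
    have e3 := hmul (a * b) a⁻¹
    have e4 := hmul a b
    rw [hinv] at e2 e3
    rw [List.prod_cons, List.length_cons]
    push_cast
    linarith

end General

variable {B W : Type*} [Group W] {M : CoxeterMatrix B}

theorem pc_sq (cs : CoxeterSystem M W) (g : W) : PC (g ^ 2) (rl cs g) := by
  obtain ⟨l, h1, h2, rfl⟩ := exists_list_rl cs g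
  rw [← h1]
  clear h1
  induction l with
  | nil => simpa using PC.one
  | cons r l ih =>
    have ih := ih fun r hr => h2 r (List.mem_cons_of_mem _ hr)
    have hr := (h2 r List.mem_cons_self).inv
    have := ih.cons r l.prod
    rw [hr] at this
    rw [List.prod_cons, List.length_cons]
    have e : (r * l.prod) ^ 2 = r * l.prod * r * l.prod⁻¹ * l.prod ^ 2 := by
      simp only [pow_two]; group
    rw [e]
    exact this

theorem pc_pow (cs : CoxeterSystem M W) (w : W) (n : ℕ) :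
    PC (w ^ (2 * n)) (cl (w ^ (2 * n))) := by
  have := pc_sq cs (w ^ n)
  rw [← pow_mul, mul_comm] at this
  exact this.cl

theorem cl_le_rl (cs : CoxeterSystem M W) (w : W) (n : ℕ) :
    cl (w ^ (2 * n)) ≤ rl cs (w ^ n) := by
  have := pc_sq cs (w ^ n)
  rw [← pow_mul, mul_comm] at this
  exact this.cl_le

theorem subadd_cl (cs : CoxeterSystem M W) (w : W) :
    Subadditive (fun n : ℕ => (cl (w ^ (2 * n)) : ℝ)) := by
  intro m n
  simp only [mul_add, pow_add]
  exact_mod_cast ((pc_pow cs w m).mul (pc_pow cs w n)).cl_le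

/-- Twice the stable commutator length. -/
noncomputable def sc2 (cs : CoxeterSystem M W) (w : W) : ℝ := (subadd_cl cs w).lim

variable (cs : CoxeterSystem M W)

theorem tendsto_sc2 (w : W) :
    Tendsto (fun n : ℕ => (cl (w ^ (2 * n)) : ℝ) / n) atTop (𝓝 (sc2 cs w)) := by
  apply (subadd_cl cs w).tendsto_lim
  refine ⟨0, ?_⟩
  rintro _ ⟨n, rfl⟩
  positivity

theorem sc2_nonneg (w : W) : 0 ≤ sc2 cs w :=
  ge_of_tendsto' (tendsto_sc2 cs w) (fun n => by positivity)

theorem sc2_le_srl (w : W) : sc2 cs w ≤ srl cs w := by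
  refine le_of_tendsto_of_tendsto' (tendsto_sc2 cs w) (tendsto_srl cs w) fun n => ?_
  gcongr
  exact_mod_cast cl_le_rl cs w n

theorem sc2_mul_le {a b : W} (h : Commute a b) : sc2 cs (a * b) ≤ sc2 cs a + sc2 cs b := by
  refine le_of_tendsto_of_tendsto' (tendsto_sc2 cs (a * b))
    ((tendsto_sc2 cs a).add (tendsto_sc2 cs b)) (fun n => ?_)
  rw [h.mul_pow, ← add_div]
  gcongr
  exact_mod_cast ((pc_pow cs a n).mul (pc_pow cs b n)).cl_le

theorem sc2_pow (w : W) {k : ℕ} (hk : 0 < k) : sc2 cs (w ^ k) = k * sc2 cs w := by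
  have h1 : Tendsto (fun n : ℕ => k * n) atTop atTop :=
    tendsto_id.const_mul_atTop' hk
  have h2 := ((tendsto_sc2 cs w).comp h1).const_mul (k : ℝ)
  refine tendsto_nhds_unique (tendsto_sc2 cs (w ^ k)) (h2.congr (fun n => ?_))
  have : (k : ℝ) ≠ 0 := by positivity
  simp only [Function.comp, ← pow_mul]
  rw [show 2 * (k * n) = k * (2 * n) by ring]
  push_cast
  by_cases hn : (n : ℝ) = 0
  · simp [hn]
  · field_simp

theorem le_sc2_mul {t g : W} (h : Commute t g) (ht : srl cs t = 0) :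
    sc2 cs g ≤ sc2 cs (t * g) := by
  have h2 : Commute t⁻¹ (t * g) := ((Commute.refl t).mul_right h).inv_left
  have h3 := sc2_mul_le cs h2
  have h4 := sc2_le_srl cs t⁻¹
  rw [srl_inv, ht] at h4
  rw [inv_mul_cancel_left] at h3
  linarith

theorem le_sc2_of_lin {w : W} {c C : ℝ} (h : ∀ n : ℕ, c * n - C ≤ cl (w ^ (2 * n))) :
    c ≤ sc2 cs w := by
  have h1 : Tendsto (fun n : ℕ => c - C / n) atTop (𝓝 (c - 0)) :=
    tendsto_const_nhds.sub (tendsto_const_div_atTop_nhds_zero_nat C)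
  rw [sub_zero] at h1
  refine le_of_tendsto_of_tendsto h1 (tendsto_sc2 cs w) ?_
  filter_upwards [eventually_gt_atTop 0] with n hn
  have : (0 : ℝ) < n := by exact_mod_cast hn
  rw [le_div_iff₀ this]
  have h2 := h n
  have : (c - C / n) * n = c * n - C := by field_simp
  linarith

variable [Fintype B] [DecidableEq B] {cs}

theorem FF_le_cl {a b : Rt cs} (hab : b < a) (hs : Sim a b) {g : W} {k : ℕ} (h : PC g k) :
    FF a b 1 g ≤ 4 * (3 * (Nat.card (Quotient (simS cs)) : ℤ)) * k := by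
  refine PC.qm (φ := fun x => FF a b 1 x) (by simp [FF]) (fun x => ?_) (fun x y => ?_) h
  · have := FF_mul (a := a) (b := b) 1 x⁻¹ x
    rw [one_mul, inv_mul_cancel, FF_swap] at this
    exact this.symm
  · have e2 := FF_mul (a := a) (b := b) 1 x y
    have e3 := FF_tri hab hs 1 (x * y) y
    rw [one_mul] at e2
    rw [FF_swap (x * y), FF_swap y 1, e2] at e3
    linarith

theorem sc2_lower {g : W} (hg : g ∈ W5 cs) {α : Rt cs} (h : Ess g α) {K : ℕ} (hK : 0 < K)
    (hno : ∀ u : W, Ess g (-(u • α)) → ¬ Ess g (-(u • g ^ K • α))) :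
    1 / ((K : ℝ) * (12 * Nat.card (Quotient (simS cs)) + 1)) ≤ sc2 cs g := by
  apply le_sc2_of_lin cs (C := 1 + 2 * (Sep cs 1 g).ncard)
  intro n
  have hab : g ^ K • α < α := h.pow hK
  have hs : Sim α (g ^ K • α) := sim_smul (pow_mem hg K) α
  have h1 := cc_lower h hK (2 * n)
  have h2 := cc_upper hg hab hs hno (2 * n)
  have h3 := FF_le_cl hab hs (pc_pow cs g n)
  generalize Nat.card (Quotient (simS cs)) = N at *
  generalize (Sep cs 1 g).ncard = L at *
  generalize cl (g ^ (2 * n)) = r at *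
  have h4 : n ≤ ((2 * n - 1) / K + 1) * K := by
    have := Nat.lt_div_mul_add (a := 2 * n - 1) hK
    rw [add_mul, one_mul]; omega
  have h5 : (((2 * n - 1) / K : ℕ) : ℤ) - 2 * L ≤ 4 * (3 * N) * r := by
    simp only [FF] at h3; omega
  have h6 : (((2 * n - 1) / K : ℕ) : ℝ) - 2 * L ≤ 4 * (3 * N) * r := by exact_mod_cast h5
  have h7 : (n : ℝ) ≤ (((2 * n - 1) / K : ℕ) + 1) * K := by exact_mod_cast h4
  generalize (((2 * n - 1) / K : ℕ) : ℝ) = J at *
  have hK' : (0 : ℝ) < K := by exact_mod_cast hK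
  have hN : (0 : ℝ) ≤ N := Nat.cast_nonneg _
  have hL : (0 : ℝ) ≤ L := Nat.cast_nonneg _
  have hr : (0 : ℝ) ≤ r := Nat.cast_nonneg _
  rw [sub_le_iff_le_add, one_div, inv_mul_le_iff₀ (by positivity)]
  calc (n : ℝ) ≤ (J + 1) * K := h7
    _ ≤ ((12 * N + 1) * (r + (1 + 2 * L))) * K := by
      gcongr
      nlinarith [mul_nonneg hN hL]
    _ = _ := by ring

theorem step_sc {g : W} (hg : g ∈ W5 cs) (hne : ∃ γ : Rt cs, Ess g γ) :
    1 / (((Fintype.card B + 3 : ℕ) : ℝ) * (12 * Nat.card (Quotient (simS cs)) + 1)) ≤ sc2 cs g ∨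
      ∃ α : Rt cs, Ess g α ∧
        Red g α (Fintype.card (Equiv.Perm B) * (W5 cs).index * (W5 cs).index) := by
  classical
  have := W5_finiteIndex (cs := cs)
  obtain ⟨α, hα, hmax⟩ : ∃ α : Rt cs, Ess g α ∧
      ∀ γ : Rt cs, Ess g γ → dd γ (g • γ) ≤ dd α (g • α) := by
    have hfin : ((fun γ : Rt cs => dd γ (g • γ)) '' {γ | Ess g γ}).Finite := by
      refine (Set.finite_range fun c : Quotient (simS cs) =>
        if h : ∃ γ, Ess g γ ∧ Quotient.mk (simS cs) γ = c then dd h.choose (g • h.choose)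
        else 0).subset ?_
      rintro _ ⟨γ, hγ, rfl⟩
      refine ⟨Quotient.mk _ γ, ?_⟩
      have h : ∃ δ, Ess g δ ∧ Quotient.mk (simS cs) δ = Quotient.mk (simS cs) γ := ⟨γ, hγ, rfl⟩
      simp only [dif_pos h]
      have h1 := h.choose_spec.1
      have h2 : Sim h.choose γ := Quotient.exact h.choose_spec.2
      have h3 := dd_step hg h1 hγ (h1.comm (Commute.refl g)) (hγ.comm (Commute.refl g)) h2
      have h4 := dd_add h1 hγ (hγ.comm (Commute.refl g)) h2 (h2.trans (sim_smul hg γ))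
      omega
    obtain ⟨_, ⟨α, hα, rfl⟩, hm⟩ := Set.exists_max_image _ id hfin (Set.Nonempty.image _ hne)
    exact ⟨α, hα, fun γ hγ => hm _ ⟨γ, hγ, rfl⟩⟩
  by_cases hno : ∀ u : W, Ess g (-(u • α)) → ¬ Ess g (-(u • g ^ (Fintype.card B + 3) • α))
  · exact Or.inl (sc2_lower hg hα (by omega) hno)
  right
  push Not at hno
  obtain ⟨u, hu1, hu2⟩ := hno
  refine ⟨α, hα, ?_⟩
  obtain ⟨z, hgz, hsp, hz, hsu⟩ := good_set (cs := cs) (Dif g α) fun v hv => Dif.good hv
  by_cases h0 : ∀ γ : Rt cs, Ess g γ → Sim α γ → bf M z γ.1 = 0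
  · exact red_aff hg hgz hsp hz hsu h0
  push Not at h0
  obtain ⟨γ₀, h1, h2, h3⟩ := h0
  refine Red.mul ?_ (Nat.pos_of_ne_zero Subgroup.FiniteIndex.index_ne_zero)
  set K := Fintype.card B + 3 with hK
  have sK : Sim α (g ^ K • α) := sim_smul (pow_mem hg K) α
  have eK : Ess g (g ^ K • α) := hα.comm (Commute.self_pow g K)
  refine red_rev hg (u := u) (β := -(u • g ^ K • α)) (sK.smul u).neg_right hu2 (fun γ hγ => ?_)
    hgz hsp hz h1 h2 h3
  refine overlap hg (W5_normal.conj_mem _ (inv_mem hg) u) ?_ hu2 ?_ ?_ hγ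
  · rwa [← smul_neg', ess_conj, ess_inv_neg]
  · rw [← hK, conj_pow, smul_neg', mul_smul, mul_smul, inv_smul_smul, inv_pow, inv_smul_smul]
    exact hu1
  · refine (hmax _ hu2).trans (le_of_eq ?_)
    rw [← smul_neg', mul_smul, mul_smul, inv_smul_smul, dd_smul, ← dd_smul g (-(g ^ K • α)),
      smul_inv_smul, smul_neg', dd_of_le (neg_le_iff.2 eK.le), cnt_neg (sim_smul hg _) eK,
      ← dd_of_le eK.le, ← mul_smul, (Commute.self_pow g K).eq, mul_smul, dd_smul]

theorem gap_sc_aux (n : ℕ) : ∃ c : ℝ, 0 < c ∧ ∀ g ∈ W5 cs,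
    (Quotient.mk (simS cs) '' {γ | Ess g γ}).ncard ≤ n → srl cs g = 0 ∨ c ≤ sc2 cs g := by
  have := W5_finiteIndex (cs := cs)
  have base : ∀ g ∈ W5 cs, (¬ ∃ γ : Rt cs, Ess g γ) → srl cs g = 0 := by
    intro g hg h
    push Not at h
    exact srl_eq_zero_of_bdd cs fun j => (rl_le_length cs _).trans (length_pow_le hg h j)
  induction n with
  | zero =>
    refine ⟨1, one_pos, fun g hg h => Or.inl (base g hg ?_)⟩
    rintro ⟨γ, hγ⟩
    have := (Set.ncard_pos (Set.toFinite _)).2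
      (⟨_, γ, hγ, rfl⟩ : (Quotient.mk (simS cs) '' {γ | Ess g γ}).Nonempty)
    omega
  | succ n ih =>
    obtain ⟨c, hc, ih⟩ := ih
    set m := Fintype.card (Equiv.Perm B) * (W5 cs).index * (W5 cs).index with hm
    have hi := Nat.pos_of_ne_zero (Subgroup.FiniteIndex.index_ne_zero (H := W5 cs))
    have hm0 : 0 < m := Nat.mul_pos (Nat.mul_pos Fintype.card_pos hi) hi
    have hm1 : (0 : ℝ) < m := by exact_mod_cast hm0
    refine ⟨min (1 / (((Fintype.card B + 3 : ℕ) : ℝ) * (12 * Nat.card (Quotient (simS cs)) + 1)))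
      (c / m), lt_min (by positivity) (by positivity), fun g hg h => ?_⟩
    by_cases hne : ∃ γ : Rt cs, Ess g γ
    swap
    · exact Or.inl (base g hg hne)
    rcases step_sc hg hne with h1 | ⟨α, hα, t, g', h1, h2, h3, h4, h5⟩
    · exact Or.inr ((min_le_left _ _).trans h1)
    have e : m * srl cs g = srl cs g' := by
      rw [← srl_pow cs g hm0, h3, srl_mul_of_zero cs h2 h4]
    have e' : sc2 cs g' ≤ m * sc2 cs g := by
      rw [← sc2_pow cs g hm0, h3]
      exact le_sc2_mul cs h2 h4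
    have hlt : (Quotient.mk (simS cs) '' {γ | Ess g' γ}).ncard <
        (Quotient.mk (simS cs) '' {γ | Ess g γ}).ncard := by
      apply Set.ncard_lt_ncard _ (Set.toFinite _)
      refine ⟨Set.image_mono fun γ hγ => (h5 γ hγ).1, fun hc => ?_⟩
      obtain ⟨γ, hγ, e⟩ := hc ⟨α, hα, rfl⟩
      exact (h5 γ hγ).2 (Sim.symm (Quotient.exact e))
    rcases ih g' h1 (by omega) with h6 | h6
    · left
      rw [h6] at e
      exact (mul_eq_zero.1 e).resolve_left hm1.ne'
    · right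
      refine (min_le_right _ _).trans ?_
      rw [div_le_iff₀ hm1]; linarith

theorem gap_sc (cs : CoxeterSystem M W) :
    ∃ C : ℝ, 0 < C ∧ ∀ w : W, srl cs w = 0 ∨ C < sc2 cs w := by
  have := W5_finiteIndex (cs := cs)
  have := W5_normal (cs := cs)
  obtain ⟨c, hc, h⟩ := gap_sc_aux (cs := cs) (Nat.card (Quotient (simS cs)))
  have hi := Nat.pos_of_ne_zero (Subgroup.FiniteIndex.index_ne_zero (H := W5 cs))
  have hi' : (0 : ℝ) < (W5 cs).index := by exact_mod_cast hi
  refine ⟨c / (2 * (W5 cs).index), by positivity, fun w => ?_⟩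
  rcases h _ ((W5 cs).pow_index_mem w) (Set.ncard_le_card _) with h1 | h1
  · left
    rw [srl_pow cs w hi] at h1
    exact (mul_eq_zero.1 h1).resolve_left hi'.ne'
  · right
    rw [sc2_pow cs w hi] at h1
    rw [div_lt_iff₀ (by positivity)]
    nlinarith

end Pool.Agent.Lib.MP_c2c03e_al.Scl
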